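import Pool.Agent.H987.Z.StC

/-! Basic facts on convolution operators (statement `S_conv` of project Z). -/

set_option autoImplicit false
set_option linter.unusedSectionVars false

open scoped BigOperators InnerProductSpace Topology
open Filter MeasureTheory

namespace Pool.Agent.H194.Z987

open Pool.Agent.Y662.TR
open Pool.Agent.H987.Z (RA Sy N1 KA Rs S_conv)

variable {G ι : Type} [Group G]

/-- the summands -/
noncomputable def As (ρ : G → Equiv.Perm ι) (b : G → ℝ) (s : G) : LL ι →L[ℂ] LL ι :=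
  ((b s : ℝ) : ℂ) • Cf (ρ s) (ρ s).injective

theorem As_apply (ρ : G → Equiv.Perm ι) (b : G → ℝ) (s : G) (u : LL ι) (x : ι) :
    As ρ b s u x = ((b s : ℝ) : ℂ) * u (ρ s x) := rfl

theorem As_norm (ρ : G → Equiv.Perm ι) (b : G → ℝ) (s : G) : ‖As ρ b s‖ ≤ |b s| := by
  unfold As
  rw [norm_smul, Complex.norm_real, Real.norm_eq_abs]
  calc |b s| * ‖Cf (ρ s) (ρ s).injective‖ ≤ |b s| * 1 :=
        mul_le_mul_of_nonneg_left (Cf_norm _ _) (abs_nonneg _)
    _ = |b s| := mul_one _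

theorem As_summable (ρ : G → Equiv.Perm ι) (b : G → ℝ) (hb : Summable fun s => |b s|) :
    Summable (As ρ b) :=
  Summable.of_norm_bounded hb (As_norm ρ b)

theorem KA_hasSum (ρ : G → Equiv.Perm ι) (b : G → ℝ) (hb : Summable fun s => |b s|) :
    HasSum (As ρ b) (KA ρ b) := (As_summable ρ b hb).hasSum

theorem KA_norm (ρ : G → Equiv.Perm ι) (b : G → ℝ) (hb : Summable fun s => |b s|) :
    ‖KA ρ b‖ ≤ N1 b :=
  tsum_of_norm_bounded hb.hasSum (As_norm ρ b)

theorem KA_hasSum_apply (ρ : G → Equiv.Perm ι) (b : G → ℝ) (hb : Summable fun s => |b s|)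
    (u : LL ι) (x : ι) : HasSum (fun s => ((b s : ℝ) : ℂ) * u (ρ s x)) (KA ρ b u x) := by
  have h1 := (KA_hasSum ρ b hb).mapL ((ContinuousLinearMap.apply ℂ (LL ι)) u)
  have h2 := h1.mapL (ev x)
  exact h2

theorem sub_summable {b b' : G → ℝ} (hb : Summable fun s => |b s|)
    (hb' : Summable fun s => |b' s|) : Summable fun s => |b s - b' s| :=
  Summable.of_nonneg_of_le (fun _ => abs_nonneg _) (fun _ => abs_sub _ _) (hb.add hb')

theorem KA_sub (ρ : G → Equiv.Perm ι) (b b' : G → ℝ) (hb : Summable fun s => |b s|)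
    (hb' : Summable fun s => |b' s|) : KA ρ b - KA ρ b' = KA ρ (fun s => b s - b' s) := by
  have h1 := (KA_hasSum ρ b hb).sub (KA_hasSum ρ b' hb')
  refine h1.unique ?_
  have h2 := KA_hasSum ρ (fun s => b s - b' s) (sub_summable hb hb')
  have h3 : (As ρ fun s => b s - b' s) = fun s => As ρ b s - As ρ b' s := by
    funext s
    unfold As
    push_cast
    rw [sub_smul]
  rw [h3] at h2
  exact h2

theorem adj_Cf (ρ : G → Equiv.Perm ι) (hρ : RA ρ) (s : G) :
    ContinuousLinearMap.adjoint (Cf (ρ s) (ρ s).injective) =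
      Cf (ρ s⁻¹) (ρ s⁻¹).injective := by
  refine ContinuousLinearMap.ext fun u => ll_ext fun x => ?_
  rw [Cf_apply]
  have h1 : ρ s (ρ s⁻¹ x) = x := by
    rw [← hρ.mul, inv_mul_cancel, hρ.one]
  have h2 := Cf_adj (ρ s) (ρ s).injective u (ρ s⁻¹ x)
  rw [h1] at h2
  exact h2

theorem KA_sa (ρ : G → Equiv.Perm ι) (hρ : RA ρ) (b : G → ℝ) (hb : Sy b) :
    IsSelfAdjoint (KA ρ b) := by
  have h1 : HasSum (fun s => star (As ρ b s)) (star (KA ρ b)) := (KA_hasSum ρ b hb.sm).star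
  have h2 : (fun s => star (As ρ b s)) = fun s => As ρ b s⁻¹ := by
    funext s
    rw [ContinuousLinearMap.star_eq_adjoint]
    unfold As
    rw [map_smulₛₗ, adj_Cf ρ hρ s, hb.sy]
    simp
  rw [h2] at h1
  have h3 : HasSum (fun s => As ρ b s⁻¹) (KA ρ b) :=
    (Equiv.inv G).hasSum_iff.2 (KA_hasSum ρ b hb.sm)
  exact h1.unique h3

theorem KA_bil (ρ : G → Equiv.Perm ι) (hρ : RA ρ) (b : G → ℝ) (hb : Sy b) (u v : LL ι) :
    ∑' x, KA ρ b u x * v x = ∑' x, u x * KA ρ b v x := by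
  obtain ⟨w, hw⟩ : ∃ w : LL ι, ∀ x, w x = (starRingEnd ℂ) (u x) :=
    ⟨lmk (fun x => (starRingEnd ℂ) (u x)) (by
      simpa only [Complex.norm_conj] using ll_summable u), fun x => rfl⟩
  have h1 : ∀ x, KA ρ b w x = (starRingEnd ℂ) (KA ρ b u x) := by
    intro x
    have h2 := KA_hasSum_apply ρ b hb.sm w x
    have h3 := (KA_hasSum_apply ρ b hb.sm u x).map (starRingEnd ℂ) Complex.continuous_conj
    refine h2.unique ?_
    convert h3 using 1
    funext s
    simp [hw]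
  have h2 := (ll_inner (KA ρ b w) v).tsum_eq
  have h3 := (ll_inner w (KA ρ b v)).tsum_eq
  have h4 : ⟪KA ρ b w, v⟫_ℂ = ⟪w, KA ρ b v⟫_ℂ := (KA_sa ρ hρ b hb).isSymmetric w v
  rw [← h2, ← h3] at h4
  simp only [h1, hw, Complex.conj_conj] at h4
  exact h4

/-- **C0.** -/
theorem conv : Pool.Agent.H987.Z.S_conv := by
  intro G ι _ ρ hρ b b' hb hb'
  refine ⟨fun u x => ⟨(KA_hasSum_apply ρ b hb.sm u x).summable,
    (KA_hasSum_apply ρ b hb.sm u x).tsum_eq.symm⟩, KA_norm ρ b hb.sm,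
    ⟨KA_sa ρ hρ b hb, KA_bil ρ hρ b hb⟩, ?_⟩
  rw [KA_sub ρ b b' hb.sm hb'.sm]
  exact KA_norm ρ _ (sub_summable hb.sm hb'.sm)

end Pool.Agent.H194.Z987
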